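import Pool.Agent.H.MP_a7579f_an.B
namespace Pool.Agent.H.MP_563d58_an
open Metric Filter Topology Complex Real MeasureTheory Pool.Agent.H.MP_a7579f_an ComplexConjugate

noncomputable def E (t : ℝ) : ℂ := cexp (t * I)

lemma E_norm (t : ℝ) : ‖E t‖ = 1 := norm_exp_ofReal_mul_I t

@[fun_prop] lemma E_cont : Continuous E := by unfold E; fun_prop

lemma E_mem (t : ℝ) : E t ∈ closedBall (0 : ℂ) 1 := by simp [E_norm]

lemma E_ne (z : D) (t : ℝ) : E t - z ≠ 0 := fun h =>
  (mem_ball_zero_iff.1 z.2).ne (by rw [← sub_eq_zero.1 h, E_norm])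

lemma ae_E : ∀ᵐ t, E t ∈ closedBall (0 : ℂ) 1 \ {1, -1} := by
  filter_upwards [(Set.countable_range fun n : ℤ => n * π).ae_notMem volume] with t ht
  refine ⟨E_mem t, fun h => ht (Real.sin_eq_zero_iff.1 ?_)⟩
  rcases h with h | h <;> simpa [E] using congrArg im h

noncomputable def pk (z : ℂ) (t : ℝ) : ℝ := (1 - ‖z‖ ^ 2) / ‖E t - z‖ ^ 2

lemma pk_cont (z : D) : Continuous (pk z) :=
  continuous_const.div (by fun_prop) fun t => pow_ne_zero _ (norm_ne_zero_iff.2 (E_ne z t))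

lemma pk_nn (z : D) (t : ℝ) : 0 ≤ pk z t / (2 * π) :=
  div_nonneg (div_nonneg (sub_nonneg.2 (pow_le_one₀ (norm_nonneg _)
    (mem_ball_zero_iff.1 z.2).le)) (sq_nonneg _)) (by positivity)

noncomputable def m (z : D) : Measure ℝ :=
  (volume.restrict (Set.Ioc 0 (2 * π))).withDensity fun t => ENNReal.ofReal (pk z t / (2 * π))

lemma m_ac (z : D) : m z ≪ volume :=
  (withDensity_absolutelyContinuous _ _).trans Measure.absolutelyContinuous_restrict

lemma m_int (z : D) (f : ℝ → ℂ) :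
    ∫ t, f t ∂m z = (∫ t in (0 : ℝ)..(2 * π), f t * pk z t) / (2 * π) := by
  rw [m, integral_withDensity_eq_integral_toReal_smul ((pk_cont z).div_const _).measurable.ennreal_ofReal
    (by simp), intervalIntegral.integral_of_le (by positivity), ← integral_div]
  congr 1; funext t
  rw [ENNReal.toReal_ofReal (pk_nn z t), real_smul]; push_cast; ring

lemma m_an {G : ℂ → ℂ} (h : DifferentiableOn ℂ G (closedBall 0 1)) (z : D) :
    ∫ t, G (E t) ∂m z = G z := by
  rw [← (h.mono closure_ball_subset_closedBall).diffContOnCl.circleAverage_poissonKernel_smul' z.2,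
    m_int, circleAverage_def, real_smul, mul_comm _ (∫ _ in _.._, _), div_eq_mul_inv]
  congr 1
  · congr 1; funext t
    simp [circleMap, pk, E, mul_comm]
  · push_cast; rfl

instance (z : D) : IsProbabilityMeasure (m z) := by
  have : IsFiniteMeasure (m z) := isFiniteMeasure_withDensity_ofReal
    (((pk_cont z).div_const _).integrableOn_Ioc).2
  have h := m_an (G := fun _ => 1) (differentiableOn_const _) z
  simp only [integral_const, real_smul, mul_one, ofReal_eq_one] at h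
  exact isProbabilityMeasure_iff_real.2 h

def Bn (f : ℝ → ℂ) (B : ℝ) : Prop := AEStronglyMeasurable f volume ∧ ∀ᵐ t, ‖f t‖ ≤ B

lemma Bn.int {f : ℝ → ℂ} {B : ℝ} (h : Bn f B) (z : D) : Integrable f (m z) :=
  .of_bound (h.1.mono_ac (m_ac z)) B ((m_ac z).ae_le h.2)

lemma Bn.mul {f g : ℝ → ℂ} {B C : ℝ} (h : Bn f B) (h' : Bn g C) :
    Bn (fun t => f t * g t) (B * C) :=
  ⟨h.1.mul h'.1, (h.2.and h'.2).mono fun _ h => norm_mul_le_of_le h.1 h.2⟩

lemma Bn.le {f : ℝ → ℂ} {B : ℝ} (h : Bn f B) (z : D) : ‖∫ t, f t ∂m z‖ ≤ B := by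
  simpa using norm_integral_le_of_norm_le_const ((m_ac z).ae_le h.2)

lemma bn_E (n : ℕ) : Bn (fun t => E t ^ n) 1 :=
  ⟨(E_cont.pow n).aestronglyMeasurable, .of_forall fun t => by simp [E_norm]⟩

def Gd (G : ℂ → ℂ) (B : ℝ) : Prop := DifferentiableOn ℂ G (ball 0 1) ∧
  ContinuousOn G (closedBall 0 1 \ {1, -1}) ∧ ∀ w ∈ closedBall (0 : ℂ) 1, ‖G w‖ ≤ B

lemma Gd.pf {G : ℂ → ℂ} {B : ℝ} (h : Gd G B) :
    Bn (fun t => G (E t)) B ∧ ∀ z : D, ∫ t, G (E t) ∂m z = G z := by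
  let r : ℕ → ℝ := fun n => n / (n + 1)
  have r1 : Tendsto (fun n => (r n : ℂ)) atTop (𝓝 1) :=
    (continuous_ofReal.tendsto 1).comp (tendsto_natCast_div_add_atTop (1 : ℝ))
  have r2 : ∀ n, ∀ w ∈ closedBall (0 : ℂ) 1, (r n : ℂ) * w ∈ ball (0 : ℂ) 1 := fun n w hw => by
    rw [mem_ball_zero_iff, norm_mul, Complex.norm_real, Real.norm_of_nonneg (by positivity)]
    exact mul_lt_one_of_nonneg_of_lt_one_left (by positivity)
      ((div_lt_one (by positivity)).2 (lt_add_one _)) (mem_closedBall_zero_iff.1 hw)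
  have h1 : ∀ n, DifferentiableOn ℂ (fun w => G (r n * w)) (closedBall 0 1) := fun n =>
    h.1.comp (by fun_prop) (r2 n)
  have hs : ball (0 : ℂ) 1 ⊆ closedBall 0 1 \ {1, -1} := fun w hw =>
    ⟨ball_subset_closedBall hw, by rintro (rfl | rfl) <;> simp at hw⟩
  have h0 : ∀ w ∈ closedBall (0 : ℂ) 1 \ {1, -1},
      Tendsto (fun n => G (r n * w)) atTop (𝓝 (G w)) := fun w hw =>
    (h.2.1 w hw).tendsto.comp (tendsto_nhdsWithin_iff.2 ⟨by simpa using r1.mul_const w,
      .of_forall fun n => hs (r2 n w hw.1)⟩)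
  have h2 : ∀ n, Continuous fun t => G (r n * E t) := fun n =>
    (h1 n).continuousOn.comp_continuous E_cont E_mem
  have h3 := ae_E.mono fun t => h0 (E t)
  refine ⟨⟨aestronglyMeasurable_of_tendsto_ae _ (fun n => (h2 n).aestronglyMeasurable) h3,
    .of_forall fun t => h.2.2 _ (E_mem t)⟩, fun z => tendsto_nhds_unique ?_ (h0 _ (hs z.2))⟩
  simp only [← m_an (h1 _) z]
  exact tendsto_integral_of_dominated_convergence (fun _ => B)
    (fun n => (h2 n).aestronglyMeasurable) (integrable_const _) (fun n => .of_forall fun t =>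
      h.2.2 _ (ball_subset_closedBall (r2 n _ (E_mem t)))) ((m_ac z).ae_le h3)

lemma Gd.sq {G : ℂ → ℂ} {B : ℝ} (h : Gd G B) (z : D) :
    Integrable (fun t => ‖G (E t) - 1‖ ^ 2) (m z) ∧
      ∫ t, ‖G (E t) - 1‖ ^ 2 ∂m z ≤ B ^ 2 + 1 - 2 * (G z).re := by
  have h1 := h.pf.1.int z
  have h2 : ∀ t, ‖G (E t) - 1‖ ^ 2 ≤ B ^ 2 + 1 - 2 * (G (E t)).re := fun t => by
    have := pow_le_pow_left₀ (norm_nonneg _) (h.2.2 _ (E_mem t)) 2
    rw [Complex.sq_norm] at this ⊢
    simp only [normSq_sub, map_one, mul_one]; linarith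
  have h3 : Integrable (fun t => B ^ 2 + 1 - 2 * (G (E t)).re) (m z) :=
    (integrable_const _).sub (h1.re.const_mul 2)
  refine ⟨h3.mono' ((h1.1.sub aestronglyMeasurable_const).norm.pow 2) (.of_forall fun t => by
    simpa using h2 t), (integral_mono_of_nonneg (.of_forall fun t => by positivity) h3
      (.of_forall h2)).trans_eq ?_⟩
  refine (integral_sub (integrable_const _) (h1.re.const_mul 2)).trans ?_
  rw [integral_const_mul, ← h.pf.2 z, integral_re h1]
  simp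

def O : D := ⟨0, by simp⟩

def Ng (f : ℝ → ℂ) : Prop := ∀ n : ℕ, 0 < n → ∫ t, f t * E t ^ n ∂m O = 0

lemma ng_iff (f : ℝ → ℂ) : Ng f ↔ ∀ n : ℕ, 0 < n →
    ∫ t in (0 : ℝ)..(2 * π), f t * cexp ((n : ℂ) * (t : ℂ) * I) = 0 := by
  refine forall₂_congr fun n _ => ?_
  simp [m_int, O, pk, mul_assoc (n : ℂ), Complex.exp_nat_mul, E]

lemma Gd.ng {G : ℂ → ℂ} {B : ℝ} (h : Gd G B) : Ng fun t => G (E t) := fun n hn => by
  have : Gd (fun w => G w * w ^ n) (B * 1) := ⟨h.1.mul (by fun_prop), h.2.1.mul (by fun_prop),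
    fun w hw => norm_mul_le_of_le (h.2.2 w hw) ((norm_pow _ _).trans_le
      (pow_le_one₀ (norm_nonneg _) (mem_closedBall_zero_iff.1 hw)))⟩
  simpa [O, hn.ne'] using this.pf.2 O

lemma Ng.step {f : ℝ → ℂ} {B : ℝ} (h : Ng f) (hb : Bn f B) (z : D) (M : ℕ) :
    ∫ t, f t * E t ^ (M + 1) ∂m z = z * ∫ t, f t * E t ^ M ∂m z := by
  have hz := mem_ball_zero_iff.1 z.2
  rw [← sub_eq_zero, ← integral_const_mul, ← integral_sub ((hb.mul (bn_E _)).int z)
    (((hb.mul (bn_E _)).int z).const_mul _)]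
  have h1 := hasSum_integral_of_summable_integral_norm (μ := m O)
    (F := fun j t => (1 - ‖z.1‖ ^ 2 : ℝ) * conj z.1 ^ j * (f t * E t ^ (M + j + 1)))
    (fun j => ((hb.mul (bn_E _)).int O).const_mul _) (by
      refine .of_nonneg_of_le (fun _ => integral_nonneg fun _ => norm_nonneg _) (fun j => ?_)
        (((summable_geometric_of_lt_one (norm_nonneg _) hz).mul_left
          ‖((1 - ‖z.1‖ ^ 2 : ℝ) : ℂ)‖).mul_right (B * 1))
      simp only [norm_mul (_ * _), norm_mul _ (_ ^ _ : ℂ), norm_pow, norm_conj, integral_const_mul]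
      gcongr
      simpa using (le_abs_self _).trans (norm_integral_le_of_norm_le_const (μ := m O)
        (f := fun t => ‖f t * E t ^ (M + j + 1)‖) ((m_ac O).ae_le
          ((hb.mul (bn_E _)).2.mono fun t h => (norm_norm _).trans_le h))))
  simp only [integral_const_mul, h _ (Nat.succ_pos _), mul_zero] at h1
  rw [hasSum_zero.unique h1, m_int, m_int]
  congr 2; funext t
  have h2 : ‖conj z.1 * E t‖ < 1 := by simpa [E_norm]
  have h3 : conj (E t) * E t = 1 := by rw [conj_mul', E_norm]; simp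
  have h4 := E_ne z t
  have h5 : 1 - conj z.1 * E t ≠ 0 := fun h => h2.ne (by rw [← sub_eq_zero.1 h, norm_one])
  have h6 : ((‖E t - z‖ ^ 2 : ℝ) : ℂ) * E t = (E t - z) * (1 - conj z.1 * E t) := by
    rw [ofReal_pow, ← mul_conj', map_sub]; linear_combination (E t - z) * h3
  have h7 := (hasSum_geometric_of_norm_lt_one h2).mul_left
    ((1 - ‖z.1‖ ^ 2 : ℝ) * f t * E t ^ (M + 1))
  rw [tsum_congr (g := fun j => (1 - ‖z.1‖ ^ 2 : ℝ) * f t * E t ^ (M + 1) * (conj z.1 * E t) ^ j)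
    fun j => by ring, h7.tsum_eq, pk, pk, ofReal_div, eq_div_of_mul_eq
    (norm_ne_zero_iff.1 (by simp [E_norm])) h6]
  simp only [O, norm_zero, sub_zero, E_norm]
  field_simp
  push_cast
  ring

lemma Ng.le {f : ℝ → ℂ} {B : ℝ} (h : Ng f) (hb : Bn f B) (z : D) (M : ℕ) :
    ‖∫ t, f t * E t ^ M ∂m z‖ ≤ ‖z.1‖ ^ M * B := by
  induction M with
  | zero => simpa using hb.le z
  | succ M ih => rw [h.step hb, norm_mul, pow_succ', mul_assoc]; gcongr

end Pool.Agent.H.MP_563d58_an
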