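import Pool.Agent.H.MP_563d58_an.A
namespace Pool.Agent.H.MP_563d58_an
open Metric Filter Topology Complex Real MeasureTheory Pool.Agent.H.MP_a7579f_an
open Pool.Agent.H.MP_c4e2dd_an

lemma fn_le' (n : ℕ) {w : ℂ} (hw : w ∈ closedBall (0 : ℂ) 1) : ‖fn n w‖ ≤ β n (lam w).re := by
  obtain ⟨h1, h2⟩ := lam_st hw
  rw [fn, β, Complex.norm_exp, Real.exp_le_exp, neg_re, sq, mul_re, div_ofReal_re, div_ofReal_im]
  simp only [sub_re, add_re, ofReal_re, mul_I_re, div_ofNat_im, ofReal_im, zero_div, neg_zero,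
    add_zero, sub_im, add_im, mul_I_im, div_ofNat_re, zero_add]
  have h3 : ((lam w).im - π / 4) * ((lam w).im - π / 4) ≤ 1 := by nlinarith [pi_le_four]
  have h4 : ((lam w).im - π / 4) / (n + 1) * (((lam w).im - π / 4) / (n + 1)) ≤ 1 / (n + 1) := by
    rw [div_mul_div_comm, div_le_div_iff₀ (by positivity) (by positivity)]
    nlinarith [n.cast_nonneg (α := ℝ), mul_self_nonneg ((lam w).im - π / 4)]
  linarith

lemma FF_near' {c : ℕ → ℂ} (hc : ∀ n, ‖c n‖ ≤ 1) {w : ℂ} (hw : w ∈ closedBall (0 : ℂ) 1) {k : ℕ}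
    (hk : ∀ n ≠ k, ¬ Ex n (lam w).re) : ‖FF c w - c k * fn k w‖ ≤ ∑' n, γ (lam w).re n := by
  have h1 : ∀ n, ‖c n * fn n w‖ ≤ β n (lam w).re := fun n =>
    (norm_mul_le_of_le (hc n) (fn_le' n hw)).trans_eq (one_mul _)
  rw [FF, ((β_sum _).of_norm_bounded h1).tsum_eq_add_tsum_ite k, add_sub_cancel_left]
  refine tsum_of_norm_bounded (summable_exp_neg_nat.of_norm_bounded (γ_le _)).hasSum fun n => ?_
  split_ifs with h
  · unfold γ; split_ifs <;> simp [β, Real.exp_nonneg]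
  · rw [γ, if_neg (hk n h)]; exact h1 n

lemma FF_bd' : ∃ C, ∀ c : ℕ → ℂ, (∀ n, ‖c n‖ ≤ 1) → ∀ w ∈ closedBall (0 : ℂ) 1, ‖FF c w‖ ≤ C := by
  refine ⟨1 * (rexp 3 * ∑' n : ℕ, rexp (-n)) + (1 * rexp 1 + ∑' n : ℕ, rexp (-n)),
    fun c hc w hw => ?_⟩
  have s0 : 0 ≤ ∑' n : ℕ, rexp (-n) := tsum_nonneg fun _ => (Real.exp_pos _).le
  rcases le_total (lam w).re 2 with h | h
  · refine le_add_of_le_of_nonneg ?_ (by positivity)
    rw [← tsum_mul_left, ← tsum_mul_left]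
    exact tsum_of_norm_bounded ((summable_exp_neg_nat.mul_left _).mul_left 1).hasSum fun n =>
      norm_mul_le_of_le (hc n) ((fn_le' n hw).trans ((β_loc n h).trans_eq (by norm_num)))
  · obtain ⟨k, -, hk⟩ := Ex_one (lam w).re 0 (by norm_num; exact h)
    exact le_add_of_nonneg_of_le (by positivity) ((norm_le_insert' _ _).trans (add_le_add
      (norm_mul_le_of_le (hc k) ((fn_le' k hw).trans ((β_le _ _).trans (Real.exp_le_exp.2
        (div_le_one_of_le₀ (by simp) (by positivity)))))) ((FF_near' hc hw hk).trans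
          ((le_abs_self _).trans (tsum_of_norm_bounded summable_exp_neg_nat.hasSum (γ_le _))))))

abbrev K : Set ℂ := closedBall 0 1 \ {1, -1}

lemma near' {ε : ℝ} (hε : 0 < ε) : ∃ δ > 0, ∀ w ∈ K, ‖w - 1‖ < δ → ∃ k,
    ∀ c : ℕ → ℂ, (∀ n, ‖c n‖ ≤ 1) → ‖FF c w - c k * fn k w‖ ≤ ε := by
  obtain ⟨y, hy⟩ := eventually_atTop.1
    ((γ_tend.eventually (ge_mem_nhds hε)).and (eventually_ge_atTop 2))
  refine ⟨2 / (1 + rexp (2 * y)), by positivity, fun w hw h => ?_⟩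
  have h1 : w ≠ 1 := fun h => hw.2 (by simp [h])
  have h2 : w ≠ -1 := fun h => hw.2 (by simp [h])
  have h3 : ‖1 + w‖ = rexp (2 * (lam w).re) * ‖1 - w‖ := by
    rw [show 2 * (lam w).re = Real.log ‖(1 + w) / (1 - w)‖ by simp [lam, log_re]; ring,
      Real.exp_log (norm_pos_iff.2 (s_ne h1 h2)), norm_div,
      div_mul_cancel₀ _ (norm_ne_zero_iff.2 (sub_ne_zero.2 h1.symm))]
  have h4 : y ≤ (lam w).re := not_lt.1 fun h4 => by
    have h5 := norm_add_le (1 + w) (1 - w)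
    rw [show 1 + w + (1 - w) = 2 by ring, Complex.norm_ofNat, h3, norm_sub_rev] at h5
    rw [lt_div_iff₀ (by positivity)] at h
    nlinarith [mul_le_mul_of_nonneg_left (Real.exp_le_exp.2 (show 2 * (lam w).re ≤ 2 * y by
      linarith)) (norm_nonneg (w - 1))]
  obtain ⟨k, -, hk⟩ := Ex_one (lam w).re 0 (by norm_num; exact (hy _ h4).2)
  exact ⟨k, fun c hc => (FF_near' hc hw.1 hk).trans (hy _ h4).1⟩

lemma fn_d (n : ℕ) {w : ℂ} (hw : w ∈ K) : DifferentiableAt ℂ (fn n) w := by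
  have := lam_diff hw.1 (fun h => hw.2 (by simp [h])) fun h => hw.2 (by simp [h])
  unfold fn; fun_prop

lemma ball_K : ball (0 : ℂ) 1 ⊆ K := fun w hw =>
  ⟨ball_subset_closedBall hw, by rintro (rfl | rfl) <;> simp at hw⟩

lemma fn_gd (n : ℕ) : Gd (fn n) (rexp (1 / (n + 1))) :=
  ⟨fun _ hw => (fn_d n (ball_K hw)).differentiableWithinAt,
    fun _ hw => (fn_d n hw).continuousAt.continuousWithinAt,
    fun _ hw => (fn_le' n hw).trans (β_le _ _)⟩

noncomputable def pl (u : ℕ → ℂ → ℂ) (w : ℂ) : ℂ := FF (u · w) w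

def Un (u : ℕ → ℂ → ℂ) : Prop :=
  ∀ n, Differentiable ℂ (u n) ∧ ∀ w ∈ closedBall (0 : ℂ) 1, ‖u n w‖ ≤ 1

lemma pl_gd {u : ℕ → ℂ → ℂ} (hu : Un u) : ∃ C, Gd (pl u) C := by
  obtain ⟨C, hC⟩ := FF_bd'
  have h0 : ∀ z ∈ K, {w | (lam w).re < (lam z).re + 1} ∈ 𝓝 z := fun z hz =>
    (continuous_re.continuousAt.comp (lam_diff hz.1 (fun h => hz.2 (by simp [h]))
      fun h => hz.2 (by simp [h])).continuousAt).eventually (gt_mem_nhds (lt_add_one _))
  have h1 : ∀ (y : ℝ) n, ∀ w ∈ K, (lam w).re < y → ‖u n w * fn n w‖ ≤ 1 * (rexp (1 + |y|) * rexp (-n)) :=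
    fun y n w hw h => norm_mul_le_of_le ((hu n).2 w hw.1) ((fn_le' n hw.1).trans (β_loc n h.le))
  refine ⟨C, fun z hz => ?_, fun z hz => ?_, fun w hw => hC _ (fun n => (hu n).2 w hw) w hw⟩
  · obtain ⟨s, s1, s2, s3⟩ := _root_.mem_nhds_iff.1
      (inter_mem (isOpen_ball.mem_nhds hz) (h0 z (ball_K hz)))
    exact ((differentiableOn_tsum_of_summable_norm ((summable_exp_neg_nat.mul_left _).mul_left 1)
      (fun n w hw => (((hu n).1 w).mul (fn_d n (ball_K (s1 hw).1))).differentiableWithinAt) s2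
      fun n w hw => h1 _ n w (ball_K (s1 hw).1) (s1 hw).2).differentiableAt
        (s2.mem_nhds s3)).differentiableWithinAt
  · exact (continuousOn_tsum (s := K ∩ {w | (lam w).re < (lam z).re + 1})
      (fun n w hw => (((hu n).1 w).mul (fn_d n hw.1)).continuousAt.continuousWithinAt)
      ((summable_exp_neg_nat.mul_left _).mul_left 1) (fun n w hw => h1 _ n w hw.1 hw.2) z
      ⟨hz, by simp⟩).mono_of_mem_nhdsWithin (inter_mem_nhdsWithin _ (h0 z hz))

lemma id_gd : Gd id 1 := ⟨differentiableOn_id, continuousOn_id, by simp⟩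

lemma zs_one : Tendsto (fun n => (zs n : ℂ)) atTop (𝓝 1) := 𝓕_one.comp zs_tend

lemma conc {h : ℕ → ℝ → ℝ} {C : ℝ} (h0 : ∀ n t, 0 ≤ h n t) (hC : ∀ n, ∀ᵐ t, h n t ≤ C)
    (H : ∀ ε > 0, ∃ δ > 0, ∀ n, ∀ᵐ t, ‖fn n (E t) - 1‖ < δ → ‖E t - 1‖ < δ → h n t ≤ ε) :
    Tendsto (fun n => ∫ t, h n t ∂m (zs n)) atTop (𝓝 0) := by
  have C0 : 0 ≤ C := let ⟨t, ht⟩ := (hC 0).exists; (h0 0 t).trans ht
  have h1 : Tendsto (fun n : ℕ => rexp (1 / (n + 1)) ^ 2 + 1 - 2 * (fn n (zs n)).re +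
      (1 ^ 2 + 1 - 2 * (id (zs n : ℂ)).re)) atTop (𝓝 0) := by
    simp only [show ∀ n, fn n (zs n) = 1 from fun n => by simp [fn, zs_lam]]
    exact ((((((Real.continuous_exp.tendsto 0).comp tendsto_one_div_add_atTop_nhds_zero_nat).pow
      2).add_const 1).sub_const _).add ((((continuous_re.tendsto _).comp zs_one).const_mul
        2).const_sub _)).trans_eq (by norm_num)
  refine tendsto_order.2 ⟨fun a ha => .of_forall fun n => ha.trans_le (integral_nonneg (h0 n)),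
    fun a ha => ?_⟩
  obtain ⟨δ, d0, hδ⟩ := H _ (half_pos ha)
  filter_upwards [(h1.const_mul (C / δ ^ 2)).eventually (gt_mem_nhds (a := a / 2) (by simpa))]
    with n hn
  obtain ⟨i1, i2⟩ := (fn_gd n).sq (zs n)
  obtain ⟨i3, i4⟩ := id_gd.sq (zs n)
  refine (integral_mono_of_nonneg (.of_forall (h0 n)) ((integrable_const (a / 2)).add
    ((i1.add i3).const_mul (C / δ ^ 2))) ((m_ac _).ae_le ?_)).trans_lt ?_
  · filter_upwards [hC n, hδ n] with t h2 h3
    have h4 : ∀ x y : ℝ, δ ≤ x → C ≤ C / δ ^ 2 * (x ^ 2 + y ^ 2) := fun x y h => by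
      rw [div_mul_eq_mul_div, le_div_iff₀ (by positivity)]
      gcongr
      nlinarith
    simp only [Pi.add_apply, id]
    by_cases h5 : ‖fn n (E t) - 1‖ < δ
    · by_cases h6 : ‖E t - 1‖ < δ
      · exact le_add_of_le_of_nonneg (h3 h5 h6) (by positivity)
      · linarith [h4 _ ‖fn n (E t) - 1‖ (not_lt.1 h6), add_comm (‖fn n (E t) - 1‖ ^ 2) (‖E t - 1‖ ^ 2)]
    · linarith [h4 _ ‖E t - 1‖ (not_lt.1 h5)]
  · rw [integral_add' (integrable_const _) ((i1.add i3).const_mul _), integral_const_mul,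
      integral_add' i1 i3]
    simp only [integral_const, probReal_univ, smul_eq_mul, one_mul]
    linarith [mul_le_mul_of_nonneg_left (add_le_add i2 i4) (show 0 ≤ C / δ ^ 2 by positivity)]

lemma pl_tend {u : ℕ → ℂ → ℂ} (hu : Un u) :
    Tendsto (fun n => ∫ t, ‖pl u (E t) - u n (E t)‖ ∂m (zs n)) atTop (𝓝 0) := by
  obtain ⟨C, hC⟩ := pl_gd hu
  refine conc (C := C + 1) (fun _ _ => norm_nonneg _) (fun n => .of_forall fun t =>
    norm_sub_le_of_le (hC.2.2 _ (E_mem t)) ((hu n).2 _ (E_mem t))) fun ε hε => ?_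
  have e0 : 0 < min (ε / 2) (1 / 2) := by positivity
  obtain ⟨δ, d0, hδ⟩ := near' e0
  refine ⟨_, lt_min d0 e0, fun n => ae_E.mono fun t ht h1 h2 => ?_⟩
  obtain ⟨k, hk⟩ := hδ _ ht (lt_min_iff.1 h2).1
  obtain ⟨-, h3, h4⟩ : _ ∧ _ ∧ _ := by simpa only [lt_min_iff] using h1
  obtain rfl : n = k := by
    by_contra h
    have h5 := hk (fun j => if j = n then 1 else 0) fun j => by split_ifs <;> simp
    have h6 := norm_le_insert (fn n (E t)) 1
    simp only [FF, ite_mul, one_mul, zero_mul, tsum_ite_eq, if_neg (Ne.symm h), sub_zero,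
      le_min_iff] at h5
    rw [norm_one] at h6
    linarith [h5.2]
  have h5 := norm_add_le_of_le (le_min_iff.1 (hk _ fun j => (hu j).2 _ ht.1)).1
    (norm_mul_le_of_le ((hu n).2 _ ht.1) h3.le)
  convert h5 using 1
  · congr 1; unfold pl; ring
  · ring

lemma ct_tend {f : ℝ → ℂ} (h : Continuous f) (hp : f.Periodic (2 * π)) : (∃ B, Bn f B) ∧
    Tendsto (fun n => ∫ t, ‖f t - f 0‖ ∂m (zs n)) atTop (𝓝 0) := by
  obtain ⟨B, hB⟩ := (hp.isBounded_of_continuous (by positivity) h).exists_norm_le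
  have h1 : ∀ t, ‖f t‖ ≤ B := fun t => hB _ ⟨t, rfl⟩
  refine ⟨⟨B, h.aestronglyMeasurable, .of_forall h1⟩, conc (C := B + B) (fun _ _ => norm_nonneg _)
    (fun n => .of_forall fun t => norm_sub_le_of_le (h1 _) (h1 _)) fun ε hε => ?_⟩
  obtain ⟨δ, d0, hδ⟩ := Metric.continuousAt_iff.1
    (h.continuousAt.comp (continuousAt_arg one_mem_slitPlane)) ε hε
  refine ⟨δ, d0, fun n => .of_forall fun t _ h2 => ?_⟩
  have := hδ (dist_eq_norm (E t) 1 ▸ h2)
  rw [Function.comp, Function.comp, E, arg_exp_mul_I, toIocMod, hp.sub_zsmul_eq, arg_one,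
    dist_eq_norm] at this
  exact this.le

end Pool.Agent.H.MP_563d58_an
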