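import Pool.Agent.H.MP_563d58_an.B
namespace Pool.Agent.H.MP_563d58_an
open Metric Filter Topology Complex Real MeasureTheory Pool.Agent.H.MP_a7579f_an
open Pool.Agent.H.MP_ceba03_an Pool.Agent.H.MP_e9aa5f_an TopologicalSpace ComplexConjugate

lemma N_ex (n : ℕ) : ∃ N : ℕ, ‖(zs n : ℂ)‖ ^ N < 1 / (n + 1) :=
  exists_pow_lt_of_lt_one (by positivity) (mem_ball_zero_iff.1 (zs n).2)

noncomputable def a (n : ℕ) (t : ℝ) : T := (((N_ex n).choose * t / (2 * π) : ℝ) : T)

lemma a_cont (n : ℕ) : Continuous (a n) := (AddCircle.continuous_mk' 1).comp (by fun_prop)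

lemma four_a (k n : ℕ) (t : ℝ) : fourier k (a n t) = E t ^ ((N_ex n).choose * k) := by
  rw [a, fourier_coe_apply, E, ← Complex.exp_nat_mul]
  congr 1; push_cast; field_simp; ring_nf

lemma Ng.tend {f : ℝ → ℂ} {B : ℝ} (h : Ng f) (hb : Bn f B) {k : ℕ} (hk : 0 < k) :
    Tendsto (fun n => ∫ t, f t * fourier k (a n t) ∂m (zs n)) atTop (𝓝 0) := by
  refine squeeze_zero_norm (fun n => ?_)
    ((tendsto_one_div_add_atTop_nhds_zero_nat.mul_const B).trans_eq (by simp))
  simp only [four_a]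
  refine (h.le hb _ _).trans (mul_le_mul_of_nonneg_right ((pow_le_pow_of_le_one (norm_nonneg _)
    (mem_ball_zero_iff.1 (zs n).2).le (Nat.le_mul_of_pos_right _ hk)).trans
      (N_ex n).choose_spec.le) ((norm_nonneg _).trans hb.2.exists.choose_spec))

lemma bn_c {X : Type} [TopologicalSpace X] [CompactSpace X] (φ : C(X, ℂ)) {g : ℝ → X}
    (hg : Continuous g) : Bn (fun t => φ (g t)) ‖φ‖ :=
  ⟨(φ.continuous.comp hg).aestronglyMeasurable, .of_forall fun _ => φ.norm_coe_le_norm _⟩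

lemma one_gd : Gd (fun _ => 1) 1 := ⟨differentiableOn_const _, continuousOn_const, by simp⟩

lemma int_four {k : ℤ} (hk : k ≠ 0) : ∫ s, fourier k s ∂μ = 0 := by
  simpa [fourierCoeff] using fc_one (neg_ne_zero.2 hk)

lemma equid (ψ : C(T, ℂ)) :
    Tendsto (fun n => ∫ t, ψ (a n t) ∂m (zs n)) atTop (𝓝 (∫ s, ψ s ∂μ)) := by
  have hi : ∀ (ψ : C(T, ℂ)) n, Integrable (fun t => ψ (a n t)) (m (zs n)) := fun ψ n =>
    (bn_c ψ (a_cont n)).int _
  have hi' : ∀ ψ : C(T, ℂ), Integrable ψ μ := fun ψ => (bd_cont ψ.continuous).choose_spec.int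
  have h1 : IsClosed {ψ : C(T, ℂ) | Tendsto (fun n => ∫ t, ψ (a n t) ∂m (zs n)) atTop
      (𝓝 (∫ s, ψ s ∂μ))} := by
    refine (equicontinuous_of_continuity_modulus id tendsto_id (fun n (ψ : C(T, ℂ)) =>
      ∫ t, ψ (a n t) ∂m (zs n)) fun x y n => ?_).isClosed_setOfPred_tendsto ?_
    · rw [id, dist_eq_norm, dist_eq_norm, ← integral_sub (hi x n) (hi y n)]
      exact (bn_c (x - y) (a_cont n)).le _
    · simpa [Function.comp_def, co_toL, fourierCoeff] using (co 0).continuous.comp toL.continuous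
  have h2 : ψ ∈ closure (Submodule.span ℂ (Set.range (@fourier 1)) : Set C(T, ℂ)) := by
    rw [← Submodule.topologicalClosure_coe, span_fourier_closure_eq_top]; trivial
  refine closure_minimal (fun φ h => ?_) h1 h2
  induction h using Submodule.span_induction with
  | mem _ h =>
    obtain ⟨k, rfl⟩ := h
    have h3 := fun (k : ℕ) hk => one_gd.ng.tend one_gd.pf.1 (k := k) hk
    obtain ⟨k, rfl | rfl⟩ := k.eq_nat_or_neg <;> rcases k.eq_zero_or_pos with rfl | hk
    · simp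
    · simpa only [one_mul, Set.mem_ofPred, int_four (Int.natCast_pos.2 hk).ne'] using h3 k hk
    · simp
    · rw [Set.mem_ofPred, int_four (neg_ne_zero.2 (Int.natCast_pos.2 hk).ne')]
      simpa only [one_mul, fourier_neg, integral_conj, Function.comp_def, map_zero] using
        (continuous_conj.tendsto 0).comp (h3 k hk)
  | zero => simp
  | add x y _ _ h3 h4 =>
    simpa only [Set.mem_ofPred, ContinuousMap.add_apply, integral_add (hi x _) (hi y _),
      integral_add (hi' x) (hi' y)] using h3.add h4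
  | smul c x _ h3 =>
    simpa only [Set.mem_ofPred, ContinuousMap.smul_apply, integral_smul] using h3.const_smul c

lemma lim0 (ψ : C(T, ℂ)) (x : Pt) {r : ℕ → ℝ} (hr : Tendsto r atTop (𝓝 0))
    (h : ∀ n, xs n = x → ‖∫ t, ψ (a n t) ∂m (zs n)‖ ≤ r n) : ∫ s, ψ s ∂μ = 0 :=
  norm_le_zero_iff.1 (le_of_tendsto_of_tendsto_of_frequently (equid ψ).norm hr ((xs_freq x).mono h))

noncomputable def gm (n : ℕ) (t : ℝ) : T × T :=
  if 0 ∈ (xs n).2 then (a n t, denseSeq T (xs n).1) else (denseSeq T (xs n).1, a n t)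

lemma gm_cont (n : ℕ) : Continuous (gm n) := by
  have := a_cont n
  unfold gm; split_ifs <;> fun_prop

abbrev CT := C(T × T, ℂ)

def Rel (f : ℝ → ℂ) (φ : CT) : Prop := (∃ B, Bn f B) ∧
  Tendsto (fun n => ∫ t, ‖f t - φ (gm n t)‖ ∂m (zs n)) atTop (𝓝 0)

variable {f g : ℝ → ℂ} {φ ψ : CT} {B C : ℝ}

lemma Rel.int (h : Rel f φ) (n : ℕ) : Integrable (fun t => ‖f t - φ (gm n t)‖) (m (zs n)) :=
  ((h.1.choose_spec.int _).sub ((bn_c φ (gm_cont n)).int _)).norm

lemma Rel.le (h : Rel f φ) (hb : Bn f B) : ‖φ‖ ≤ B := by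
  refine (φ.norm_le ((norm_nonneg _).trans hb.2.exists.choose_spec)).2 fun ⟨s, l⟩ => ?_
  refine (denseRange_denseSeq T).induction_on l (isClosed_le (by fun_prop) continuous_const)
    fun i => ?_
  have h1 : Continuous fun s => max (‖φ (s, denseSeq T i)‖ - B) 0 := by fun_prop
  have h2 := lim0 ⟨_, continuous_ofReal.comp h1⟩ (i, {0}) h.2 fun n hn =>
    norm_integral_le_of_norm_le (h.int n) ((m_ac _).ae_le (hb.2.mono fun t ht => by
      simp only [gm, hn, Finset.mem_singleton, if_true, ContinuousMap.coe_mk, Function.comp,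
        norm_real, Real.norm_of_nonneg (le_max_right _ _)]
      exact max_le (by linarith [norm_le_insert (f t) (φ (a n t, denseSeq T i))]) (norm_nonneg _)))
  simp only [ContinuousMap.coe_mk, Function.comp, integral_complex_ofReal, ofReal_eq_zero] at h2
  simpa using congrFun ((h1.ae_eq_iff_eq μ continuous_zero).1 ((integral_eq_zero_iff_of_nonneg
    (fun _ => le_max_right _ _) (h1.integrable_of_hasCompactSupport (.of_compactSpace _))).1 h2)) s

lemma Rel.ne0 (h : Rel f φ) (hf : Ng f) (Φ : C(T, C(T, ℂ))) (s : Finset ℕ)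
    (H : ∀ n t, (xs n).2 = s → φ (gm n t) = Φ (denseSeq T (xs n).1) (a n t)) (l : T) :
    ∀ k < 0, fourierCoeff (Φ l) k = 0 := fun k hk => by
  obtain ⟨k, rfl⟩ := Int.eq_negSucc_of_lt_zero hk
  obtain ⟨B, hb⟩ := h.1
  refine (denseRange_denseSeq T).induction_on l (isClosed_eq ?_ continuous_const) fun i => ?_
  · simpa [Function.comp_def, co_toL] using
      (co (.negSucc k)).continuous.comp (toL.continuous.comp Φ.continuous)
  refine lim0 (fourier (k + 1 : ℕ) * Φ (denseSeq T i)) (i, s) ((h.2.add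
    (hf.tend hb k.succ_pos).norm).trans_eq (by simp)) fun n hn => ?_
  have h1 := (hb.mul (bn_c (fourier (k + 1 : ℕ)) (a_cont n))).int (zs n)
  refine (norm_le_insert (∫ t, f t * fourier (k + 1 : ℕ) (a n t) ∂m (zs n)) _).trans ?_
  rw [add_comm, ← integral_sub h1 ((bn_c _ (a_cont n)).int _)]
  gcongr
  refine norm_integral_le_of_norm_le (h.int n) (.of_forall fun t => le_of_eq ?_)
  rw [H n t (by rw [hn]), hn, ContinuousMap.mul_apply, mul_comm (f t), ← mul_sub, norm_mul,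
    fourier_apply, Circle.norm_coe, one_mul]

lemma Rel.of_le (hb : ∃ B, Bn f B) {r : ℕ → ℝ → ℝ} (hi : ∀ n, Integrable (r n) (m (zs n)))
    (hr : Tendsto (fun n => ∫ t, r n t ∂m (zs n)) atTop (𝓝 0))
    (h : ∀ n, ∀ᵐ t, ‖f t - φ (gm n t)‖ ≤ r n t) : Rel f φ :=
  ⟨hb, squeeze_zero (fun _ => integral_nonneg fun _ => norm_nonneg _) (fun n =>
    integral_mono_of_nonneg (.of_forall fun _ => norm_nonneg _) (hi n) ((m_ac _).ae_le (h n))) hr⟩

lemma Bn.add (h : Bn f B) (h' : Bn g C) : Bn (f + g) (B + C) :=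
  ⟨h.1.add h'.1, (h.2.and h'.2).mono fun _ h => norm_add_le_of_le h.1 h.2⟩

lemma Bn.sub (h : Bn f B) (h' : Bn g C) : Bn (f - g) (B + C) :=
  ⟨h.1.sub h'.1, (h.2.and h'.2).mono fun _ h => norm_sub_le_of_le h.1 h.2⟩

lemma Rel.lin (h : Rel f φ) (h' : Rel g ψ) {k : ℝ → ℂ} {θ : CT} (hb : ∃ B, Bn k B) (B C : ℝ)
    (H : ∀ n, ∀ᵐ t, ‖k t - θ (gm n t)‖ ≤ B * ‖f t - φ (gm n t)‖ + C * ‖g t - ψ (gm n t)‖) :
    Rel k θ :=
  .of_le hb (fun n => ((h.int n).const_mul B).add ((h'.int n).const_mul C)) (by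
    simpa only [Pi.add_apply, integral_add ((h.int _).const_mul B) ((h'.int _).const_mul C),
      integral_const_mul, mul_zero, add_zero] using (h.2.const_mul B).add (h'.2.const_mul C)) H

lemma Rel.add (h : Rel f φ) (h' : Rel g ψ) : Rel (f + g) (φ + ψ) :=
  h.lin h' ⟨_, h.1.choose_spec.add h'.1.choose_spec⟩ 1 1 fun n => .of_forall fun t => by
    simpa [add_sub_add_comm] using norm_add_le _ _

lemma Rel.sub (h : Rel f φ) (h' : Rel g ψ) : Rel (f - g) (φ - ψ) :=
  h.lin h' ⟨_, h.1.choose_spec.sub h'.1.choose_spec⟩ 1 1 fun n => .of_forall fun t => by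
    simpa [sub_sub_sub_comm (f t)] using norm_sub_le (f t - φ (gm n t)) (g t - ψ (gm n t))

lemma Rel.mul (h : Rel f φ) (h' : Rel g ψ) : Rel (f * g) (φ * ψ) :=
  h.lin h' ⟨_, h.1.choose_spec.mul h'.1.choose_spec⟩ ‖ψ‖ h.1.choose fun n =>
    h.1.choose_spec.2.mono fun t ht => by
      rw [show (f * g) t - (φ * ψ) (gm n t) = ψ (gm n t) * (f t - φ (gm n t)) +
        f t * (g t - ψ (gm n t)) by simp; ring]
      exact norm_add_le_of_le (norm_mul_le_of_le (ψ.norm_coe_le_norm _) le_rfl)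
        (norm_mul_le_of_le ht le_rfl)

lemma rel_ct (h : Continuous f) (hp : f.Periodic (2 * π)) : Rel f (.const _ (f 0)) := ct_tend h hp

lemma Rel.smul (h : Rel f φ) (c : ℂ) : Rel (c • f) (c • φ) :=
  (rel_ct (f := fun _ => c) continuous_const fun _ => rfl).mul h

lemma Rel.star (h : Rel f φ) : Rel (fun t => star (f t)) (star φ) :=
  ⟨h.1.imp fun _ h => ⟨h.1.star, by simpa using h.2⟩, by
    simpa only [ContinuousMap.star_apply, ← star_sub, norm_star] using h.2⟩

lemma Rel.uniq (h : Rel f φ) (h' : Rel g ψ) (H : f =ᵐ[volume] g) : φ = ψ :=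
  sub_eq_zero.1 (norm_le_zero_iff.1 ((h.sub h').le ⟨(h.sub h').1.choose_spec.1,
    H.mono fun t ht => by simp [ht]⟩))

lemma rel_lim {F : ℕ → ℝ → ℂ} (hF : ∀ n, ∃ φ, Rel (F n) φ)
    (h : ∀ ε > 0, ∀ᶠ n in atTop, Bn (F n - f) ε) : ∃ φ, Rel f φ := by
  choose φ hφ using hF
  obtain ⟨θ, hθ⟩ : ∃ θ, Tendsto φ atTop (𝓝 θ) :=
    cauchySeq_tendsto_of_complete (Metric.cauchySeq_iff.2 fun ε hε => by
      obtain ⟨N, hN⟩ := eventually_atTop.1 (h (ε / 3) (by positivity))
      refine ⟨N, fun i hi j hj => ?_⟩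
      have := ((hφ i).sub (hφ j)).le (by simpa using (hN i hi).sub (hN j hj))
      rw [dist_eq_norm]; linarith)
  obtain ⟨j, hj⟩ := (h 1 one_pos).exists
  refine ⟨θ, ⟨_, by simpa using (hφ j).1.choose_spec.sub hj⟩, tendsto_order.2 ⟨fun a ha =>
    .of_forall fun n => ha.trans_le (integral_nonneg fun _ => norm_nonneg _), fun a ha => ?_⟩⟩
  have a0 : 0 < a / 3 := by positivity
  obtain ⟨j, h1, h2⟩ := ((h _ a0).and (Metric.tendsto_nhds.1 hθ _ a0)).exists
  filter_upwards [(hφ j).2.eventually (gt_mem_nhds a0)] with n hn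
  refine (integral_mono_of_nonneg (.of_forall fun _ => norm_nonneg _) (((hφ j).int n).add
    (integrable_const (2 * a / 3))) ((m_ac _).ae_le (h1.2.mono fun t ht => ?_))).trans_lt ?_
  · have h3 := norm_add_le_of_le (norm_sub_le_of_le (le_refl ‖F j t - φ j (gm n t)‖) ht)
      (((φ j - θ).norm_coe_le_norm (gm n t)).trans (dist_eq_norm (φ j) θ ▸ h2.le))
    exact (le_of_eq (by simp)).trans (h3.trans_eq (by simp; ring))
  · rw [integral_add' ((hφ j).int n) (integrable_const _)]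
    simp only [integral_const, probReal_univ, smul_eq_mul, one_mul]
    linarith

end Pool.Agent.H.MP_563d58_an
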