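import Pool.Agent.H.MP_563d58_an.C
namespace Pool.Agent.H.MP_563d58_an
open Metric Filter Topology Complex Real MeasureTheory Pool.Agent.H.MP_a7579f_an
open Pool.Agent.H.MP_ceba03_an Pool.Agent.H.MP_e9aa5f_an TopologicalSpace

variable {f g : ℝ → ℂ} {φ ψ : CT}

lemma mul0 {u v : T → ℂ} (hu : Continuous u) (hv : Continuous v)
    (h : ∀ k < 0, fourierCoeff u k = 0) (h' : ∀ k < 0, fourierCoeff v k = 0) :
    ∫ t, u t * v t ∂μ = (∫ t, u t ∂μ) * ∫ t, v t ∂μ := by
  obtain ⟨B, hB⟩ := bd_cont hu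
  obtain ⟨C, hC⟩ := bd_cont hv
  have := mul_spec hB (hC.sub (bd_const (∫ t, v t ∂μ))) 0 fun k hk => by
    rw [fc_sub hC.int (integrable_const _)]
    rcases (not_lt.1 fun hk' => hk (h k hk')).eq_or_lt with rfl | h1
    · simp [fourierCoeff]
    · rw [h' _ (by omega)]
      simp [fourierCoeff, integral_mul_const, int_four h1.ne', -fourier_apply]
  simp only [fourierCoeff, neg_zero, fourier_zero, one_smul, mul_sub] at this
  rwa [integral_sub (hB.mul hC).int (hB.int.mul_const _), integral_mul_const, sub_eq_zero] at this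

noncomputable def II (φ : CT) : ℂ := ∫ p, φ p ∂μ.prod μ

lemma ci (φ : CT) : Integrable φ (μ.prod μ) :=
  φ.continuous.integrable_of_hasCompactSupport (.of_compactSpace _)

lemma II_mul (h : Rel f φ) (hf : Ng f) (h' : Rel g ψ) (hg : Ng g) : II (φ * ψ) = II φ * II ψ := by
  have h1 : ∀ {f φ}, Rel f φ → Ng f → ∀ s, ∀ k < 0, fourierCoeff (fun l => φ (s, l)) k = 0 :=
    fun {f φ} h hf => h.ne0 hf φ.curry ∅ fun n t hn => by simp [gm, hn]
  have h2 : ∀ φ : CT, Continuous fun s => ∫ l, φ (s, l) ∂μ := fun φ => by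
    simpa [Function.comp_def, co_toL, fourierCoeff] using
      (co 0).continuous.comp (toL.continuous.comp φ.curry.continuous)
  have h3 : ∀ {f φ}, Rel f φ → Ng f → ∀ k < 0, fourierCoeff (fun s => ∫ l, φ (s, l) ∂μ) k = 0 :=
    fun {f φ} h hf k hk => by
      have := h.ne0 hf (φ.comp ContinuousMap.prodSwap).curry {0} fun n t hn => by simp [gm, hn]
      simp only [fourierCoeff, smul_eq_mul] at this ⊢
      rw [← swap (bd_four (-k)).int (K := fun x t => φ (t, x)) (by fun_prop)]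
      exact integral_eq_zero_of_ae (.of_forall fun l => this l k hk)
  simp only [II, integral_prod _ (ci _)]
  rw [← mul0 (h2 φ) (h2 ψ) (h3 h hf) (h3 h' hg)]
  congr 1; funext s
  exact mul0 (by fun_prop) (by fun_prop) (h1 h hf s) (h1 h' hg s)

open Classical in
noncomputable def χ (f : ℝ → ℂ) : ℂ := if h : ∃ φ, Rel f φ then II h.choose else 0

lemma Rel.χ (h : Rel f φ) : χ f = II φ := by
  have h1 : ∃ φ, Rel f φ := ⟨φ, h⟩
  rw [MP_563d58_an.χ, dif_pos h1, h1.choose_spec.uniq h .rfl]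

def SS : Set (ℝ → ℂ) := {f | f.Periodic (2 * π) ∧ ∃ φ, Rel f φ}

lemma Bn.top {B : ℝ} (h : Bn f B) : eLpNorm f ⊤ volume < ⊤ := eLpNormEssSup_lt_top_of_ae_bound h.2

lemma bn_of {ε : ℝ} (hε : 0 ≤ ε) (h : AEStronglyMeasurable f volume)
    (h' : eLpNorm f ⊤ volume ≤ .ofReal ε) : Bn f ε := ⟨h, by
  filter_upwards [ae_le_eLpNormEssSup (f := f) (μ := volume)] with t ht
  rw [← toReal_enorm]; exact ENNReal.toReal_le_of_le_ofReal hε (ht.trans h')⟩

lemma E_per (G : ℂ → ℂ) : Function.Periodic (fun t => G (E t)) (2 * π) := fun t => by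
  simp [E, add_mul, Complex.exp_add]

lemma pl_rel {u : ℕ → ℂ → ℂ} (hu : Un u) (h : ∀ n t, u n (E t) = φ (gm n t)) :
    Rel (fun t => pl u (E t)) φ :=
  ⟨⟨_, (pl_gd hu).choose_spec.pf.1⟩, by simpa only [h] using pl_tend hu⟩

noncomputable def U (p : ℕ → Prop) [DecidablePred p] (n : ℕ) (w : ℂ) : ℂ :=
  if p n then w ^ (N_ex n).choose else fourier 1 (denseSeq T (xs n).1)

lemma U_un (p : ℕ → Prop) [DecidablePred p] : Un (U p) := fun n => by
  unfold U; split_ifs
  · exact ⟨by fun_prop, fun w hw => (norm_pow _ _).trans_le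
      (pow_le_one₀ (norm_nonneg _) (mem_closedBall_zero_iff.1 hw))⟩
  · exact ⟨by fun_prop, fun _ _ => (e_norm _).le⟩

lemma key : ∃ G : Fin 4 → ℂ → ℂ, (∀ i, (∃ B, Gd (G i) B) ∧ ∃ φ, Rel (fun t => G i (E t)) φ) ∧
    ∃ ε > 0, ∀ z : D, ∃ i, ε ≤ ‖G i z - χ fun t => G i (E t)‖ := by
  have h0 : Un fun _ _ => 1 := fun _ => ⟨by fun_prop, by simp⟩
  have fa : ∀ n t, fourier 1 (a n t) = E t ^ (N_ex n).choose := fun n t => by
    simpa using four_a 1 n t
  have r0 := rel_ct E_cont (E_per id)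
  have r1 := pl_rel (φ := 1) h0 fun _ _ => rfl
  have r2 := pl_rel (φ := (fourier 1).comp .fst) (U_un fun n => 0 ∈ (xs n).2) fun n t => by
    unfold U gm; split_ifs <;> simp only [ContinuousMap.comp_apply, ContinuousMap.fst_apply, fa]
  have r3 := pl_rel (φ := (fourier 1).comp .snd) (U_un fun n => 0 ∉ (xs n).2) fun n t => by
    unfold U gm; by_cases h : 0 ∈ (xs n).2 <;> simp [h, fa, -fourier_apply]
  obtain ⟨δ, d0, hδ⟩ := near' (ε := 1 / 4) (by norm_num)
  refine ⟨![id, pl fun _ _ => 1, pl (U fun n => 0 ∈ (xs n).2), pl (U fun n => 0 ∉ (xs n).2)],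
    fun i => ?_, min δ (1 / 4), by positivity, fun z => ?_⟩
  · fin_cases i
    exacts [⟨⟨_, id_gd⟩, _, r0⟩, ⟨pl_gd h0, _, r1⟩, ⟨pl_gd (U_un _), _, r2⟩, ⟨pl_gd (U_un _), _, r3⟩]
  by_contra! h
  have h1 : ‖(z : ℂ) - χ E‖ < _ := h 0
  have h2 : ‖pl (fun _ _ => 1) z - χ fun t => pl (fun _ _ => 1) (E t)‖ < _ := h 1
  have h3 : ‖pl _ z - χ fun t => pl (U fun n => 0 ∈ (xs n).2) (E t)‖ < _ := h 2
  have h4 : ‖pl _ z - χ fun t => pl (U fun n => 0 ∉ (xs n).2) (E t)‖ < _ := h 3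
  rw [r0.χ, show II _ = 1 by simp [II, E], lt_min_iff] at h1
  rw [r1.χ, show II _ = 1 by simp [II], lt_min_iff] at h2
  rw [r2.χ, show II _ = 0 by
    rw [II, integral_prod _ (ci _)]; simpa using int_four one_ne_zero, lt_min_iff, sub_zero] at h3
  rw [r3.χ, show II _ = 0 by
    rw [II, integral_prod _ (ci _)]; simpa using int_four one_ne_zero, lt_min_iff, sub_zero] at h4
  obtain ⟨k, hk⟩ := hδ _ (ball_K z.2) h1.1
  have h5 : ∀ p [DecidablePred p], ¬ p k → ‖pl (U p) z‖ < 1 / 4 → False := fun p _ hp h => by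
    have h5 := hk (U p · z) fun n => (U_un p n).2 _ (ball_subset_closedBall z.2)
    have h6 := hk (fun _ => 1) (by simp)
    have h7 := norm_le_insert (pl (U p) z) (U p k z * fn k z)
    have h8 := norm_le_insert' (pl (fun _ _ => 1) z) (1 * fn k z)
    have h9 := norm_le_insert (pl (fun _ _ => 1) z) 1
    rw [norm_mul, U, if_neg hp, fourier_apply, Circle.norm_coe, ← fourier_apply] at h7
    rw [U, if_neg hp] at h5
    rw [norm_mul, norm_one] at h8
    rw [norm_one] at h9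
    unfold pl at *
    linarith [h2.2]
  exact (em _).elim (fun h => h5 _ (not_not.2 h) h4.2) fun h => h5 _ h h3.2

end Pool.Agent.H.MP_563d58_an
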